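import Mathlib

/-!
# A Gabor-type orthonormal basis of `L²(ℝ)` with cells of length `T`
-/

namespace Pool.Agent.Q166.Had

open MeasureTheory Set
open scoped InnerProductSpace ENNReal

noncomputable section

/-- The function `T^{-1/2} e^{2πi n x/T}` on the cell `(Tm, T(m+1)]`. -/
def bfun (T : ℝ) (p : ℤ × ℤ) : ℝ → ℂ :=
  (Ioc (T * p.1) (T * (p.1 + 1))).indicator
    (fun x => (((Real.sqrt T)⁻¹ : ℝ) : ℂ) *
      Complex.exp (((2 * Real.pi * p.2 * x / T : ℝ) : ℂ) * Complex.I))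

theorem bfun_of_mem (T : ℝ) (p : ℤ × ℤ) (x : ℝ) (hx : x ∈ Ioc (T * p.1) (T * (p.1 + 1))) :
    bfun T p x = (((Real.sqrt T)⁻¹ : ℝ) : ℂ) *
      Complex.exp (((2 * Real.pi * p.2 * x / T : ℝ) : ℂ) * Complex.I) :=
  indicator_of_mem hx _

theorem bfun_of_notMem (T : ℝ) (p : ℤ × ℤ) (x : ℝ) (hx : x ∉ Ioc (T * p.1) (T * (p.1 + 1))) :
    bfun T p x = 0 :=
  indicator_of_notMem hx _

theorem norm_bfun_le (T : ℝ) (p : ℤ × ℤ) (x : ℝ) : ‖bfun T p x‖ ≤ (Real.sqrt T)⁻¹ := by
  by_cases hx : x ∈ Ioc (T * p.1) (T * (p.1 + 1))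
  · rw [bfun_of_mem T p x hx, norm_mul, Complex.norm_exp_ofReal_mul_I, mul_one, Complex.norm_real,
      Real.norm_of_nonneg (by positivity)]
  · rw [bfun_of_notMem T p x hx, norm_zero]
    positivity

theorem measurable_bfun (T : ℝ) (p : ℤ × ℤ) : Measurable (bfun T p) := by
  unfold bfun
  apply Measurable.indicator _ measurableSet_Ioc
  fun_prop

theorem memLp_bfun (T : ℝ) (p : ℤ × ℤ) (q : ℝ≥0∞) : MemLp (bfun T p) q volume := by
  have h1 : MemLp ((Ioc (T * (p.1 : ℝ)) (T * (p.1 + 1))).indicator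
      (fun _ => (((Real.sqrt T)⁻¹ : ℝ) : ℂ))) q volume := by
    apply memLp_indicator_const q measurableSet_Ioc
    right
    exact measure_Ioc_lt_top.ne
  refine h1.of_le (measurable_bfun T p).aestronglyMeasurable ?_
  refine Filter.Eventually.of_forall (fun x => ?_)
  by_cases hx : x ∈ Ioc (T * (p.1 : ℝ)) (T * (p.1 + 1))
  · rw [bfun_of_mem T p x hx, indicator_of_mem hx, norm_mul, Complex.norm_exp_ofReal_mul_I,
      mul_one]
  · rw [bfun_of_notMem T p x hx, indicator_of_notMem hx]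

/-- The element of `L²(ℝ)` given by `bfun`. -/
def bL (T : ℝ) (p : ℤ × ℤ) : Lp ℂ 2 (volume : Measure ℝ) := (memLp_bfun T p 2).toLp (bfun T p)

/-- Integer frequencies have mean zero over a cell. -/
theorem integral_exp_cell (T : ℝ) (hT : 0 < T) (m k : ℤ) (hk : k ≠ 0) :
    ∫ x in (T * m)..(T * (m + 1)),
      Complex.exp (((2 * Real.pi * k * x / T : ℝ) : ℂ) * Complex.I) = 0 := by
  have hc : (2 * Real.pi * k / T : ℂ) * Complex.I ≠ 0 := by
    have h1 : (T : ℂ) ≠ 0 := by exact_mod_cast hT.ne'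
    have h2 : (Real.pi : ℂ) ≠ 0 := by exact_mod_cast Real.pi_ne_zero
    have h3 : (k : ℂ) ≠ 0 := by exact_mod_cast hk
    have : (2 * Real.pi * k / T : ℂ) ≠ 0 := by
      apply div_ne_zero _ h1
      exact mul_ne_zero (mul_ne_zero two_ne_zero h2) h3
    exact mul_ne_zero this Complex.I_ne_zero
  have h1 : ∀ x : ℝ, Complex.exp (((2 * Real.pi * k * x / T : ℝ) : ℂ) * Complex.I)
      = Complex.exp (((2 * Real.pi * k / T : ℂ) * Complex.I) * x) := by
    intro x
    congr 1
    push_cast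
    ring
  simp_rw [h1]
  rw [integral_exp_mul_complex hc]
  have h2 : Complex.exp ((2 * Real.pi * k / T : ℂ) * Complex.I * ((T * (m + 1) : ℝ) : ℂ))
      = Complex.exp ((2 * Real.pi * k / T : ℂ) * Complex.I * ((T * m : ℝ) : ℂ)) := by
    rw [Complex.exp_eq_exp_iff_exists_int]
    refine ⟨k, ?_⟩
    have h1 : (T : ℂ) ≠ 0 := by exact_mod_cast hT.ne'
    push_cast
    field_simp
  rw [h2, sub_self, zero_div]

/-- Inner products against the basis functions are integrals over a cell. -/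
theorem inner_bL (T : ℝ) (hT : 0 < T) (p : ℤ × ℤ) (f : Lp ℂ 2 (volume : Measure ℝ)) :
    ⟪bL T p, f⟫_ℂ = (((Real.sqrt T)⁻¹ : ℝ) : ℂ) * ∫ x in (T * p.1)..(T * (p.1 + 1)),
      Complex.exp (((-(2 * Real.pi * p.2 * x / T) : ℝ) : ℂ) * Complex.I) * f x := by
  have hle : T * p.1 ≤ T * (p.1 + 1) := by nlinarith
  rw [L2.inner_def, intervalIntegral.integral_of_le hle, ← integral_const_mul,
    ← integral_indicator measurableSet_Ioc]
  apply integral_congr_ae
  filter_upwards [(memLp_bfun T p 2).coeFn_toLp] with x hx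
  have hx' : (bL T p : ℝ → ℂ) x = bfun T p x := hx
  rw [hx']
  by_cases h : x ∈ Ioc (T * (p.1 : ℝ)) (T * (p.1 + 1))
  · rw [bfun_of_mem T p x h, indicator_of_mem h, RCLike.inner_apply, map_mul, Complex.conj_ofReal,
      ← Complex.exp_conj, map_mul, Complex.conj_ofReal, Complex.conj_I]
    push_cast
    ring_nf
  · rw [bfun_of_notMem T p x h, indicator_of_notMem h, inner_zero_left]

theorem inner_bL_bL (T : ℝ) (hT : 0 < T) (p q : ℤ × ℤ) :
    ⟪bL T p, bL T q⟫_ℂ = if p = q then 1 else 0 := by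
  have hle : T * p.1 ≤ T * (p.1 + 1) := by nlinarith
  have hs : Real.sqrt T * Real.sqrt T = T := Real.mul_self_sqrt hT.le
  have hs0 : Real.sqrt T ≠ 0 := (Real.sqrt_pos.mpr hT).ne'
  rw [inner_bL T hT]
  have hcongr : ∫ x in (T * p.1)..(T * (p.1 + 1)),
      Complex.exp (((-(2 * Real.pi * p.2 * x / T) : ℝ) : ℂ) * Complex.I) * (bL T q) x
      = ∫ x in (T * p.1)..(T * (p.1 + 1)),
      Complex.exp (((-(2 * Real.pi * p.2 * x / T) : ℝ) : ℂ) * Complex.I) * bfun T q x := by
    apply intervalIntegral.integral_congr_ae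
    filter_upwards [(memLp_bfun T q 2).coeFn_toLp] with x hx _
    have hx' : (bL T q : ℝ → ℂ) x = bfun T q x := hx
    rw [hx']
  rw [hcongr, intervalIntegral.integral_of_le hle]
  by_cases h1 : p.1 = q.1
  · have h2 : ∫ x in Ioc (T * (p.1 : ℝ)) (T * (p.1 + 1)),
      Complex.exp (((-(2 * Real.pi * p.2 * x / T) : ℝ) : ℂ) * Complex.I) * bfun T q x
      = ∫ x in Ioc (T * (p.1 : ℝ)) (T * (p.1 + 1)), (((Real.sqrt T)⁻¹ : ℝ) : ℂ) *
        Complex.exp (((2 * Real.pi * ((q.2 - p.2 : ℤ) : ℝ) * x / T : ℝ) : ℂ) * Complex.I) := by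
      apply setIntegral_congr_fun measurableSet_Ioc
      intro x hx
      simp only
      rw [bfun_of_mem T q x (by rw [← h1]; exact hx)]
      have h3 : Complex.exp (((2 * Real.pi * ((q.2 - p.2 : ℤ) : ℝ) * x / T : ℝ) : ℂ) * Complex.I)
          = Complex.exp (((-(2 * Real.pi * p.2 * x / T) : ℝ) : ℂ) * Complex.I) *
            Complex.exp (((2 * Real.pi * q.2 * x / T : ℝ) : ℂ) * Complex.I) := by
        rw [← Complex.exp_add]
        congr 1
        push_cast
        ring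
      rw [h3]
      ring
    rw [h2, integral_const_mul, ← intervalIntegral.integral_of_le hle]
    by_cases h3 : p.2 = q.2
    · have h4 : p = q := Prod.ext h1 h3
      rw [if_pos h4, h3, sub_self]
      simp only [Int.cast_zero, mul_zero, zero_mul, zero_div, Complex.ofReal_zero,
        Complex.exp_zero]
      rw [intervalIntegral.integral_const]
      have h5 : T * ((p.1 : ℝ) + 1) - T * p.1 = T := by ring
      rw [h5, ← mul_assoc]
      have h6 : (((Real.sqrt T)⁻¹ : ℝ) : ℂ) * (((Real.sqrt T)⁻¹ : ℝ) : ℂ) * (T • (1 : ℂ))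
          = (((Real.sqrt T)⁻¹ * (Real.sqrt T)⁻¹ * T : ℝ) : ℂ) := by
        rw [Complex.real_smul]
        push_cast
        ring
      rw [h6]
      have h7 : (Real.sqrt T)⁻¹ * (Real.sqrt T)⁻¹ * T = 1 := by
        rw [← mul_inv, hs, inv_mul_cancel₀ hT.ne']
      rw [h7]
      simp
    · have h4 : p ≠ q := fun h => h3 (congrArg Prod.snd h)
      rw [if_neg h4, integral_exp_cell T hT p.1 (q.2 - p.2) (sub_ne_zero.mpr (Ne.symm h3))]
      simp
  · have h4 : p ≠ q := fun h => h1 (congrArg Prod.fst h)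
    rw [if_neg h4]
    have h5 : ∫ x in Ioc (T * (p.1 : ℝ)) (T * (p.1 + 1)),
      Complex.exp (((-(2 * Real.pi * p.2 * x / T) : ℝ) : ℂ) * Complex.I) * bfun T q x = 0 := by
      have h6 : ∀ x ∈ Ioc (T * (p.1 : ℝ)) (T * (p.1 + 1)),
          Complex.exp (((-(2 * Real.pi * p.2 * x / T) : ℝ) : ℂ) * Complex.I) * bfun T q x = 0 := by
        intro x hx
        rw [bfun_of_notMem, mul_zero]
        intro hx'
        apply h1
        have e1 : T * (p.1 : ℝ) < T * (q.1 + 1) := lt_of_lt_of_le hx.1 hx'.2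
        have e2 : T * (q.1 : ℝ) < T * (p.1 + 1) := lt_of_lt_of_le hx'.1 hx.2
        have e3 : (p.1 : ℝ) < q.1 + 1 := lt_of_mul_lt_mul_left e1 hT.le
        have e4 : (q.1 : ℝ) < p.1 + 1 := lt_of_mul_lt_mul_left e2 hT.le
        have e3' : p.1 < q.1 + 1 := by exact_mod_cast e3
        have e4' : q.1 < p.1 + 1 := by exact_mod_cast e4
        omega
      rw [setIntegral_congr_fun measurableSet_Ioc h6]
      simp
    rw [h5, mul_zero]

theorem orthonormal_bL (T : ℝ) (hT : 0 < T) : Orthonormal ℂ (bL T) := by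
  rw [orthonormal_iff_ite]
  intro p q
  exact inner_bL_bL T hT p q

/-- The cells cover the line. -/
theorem exists_cell (T : ℝ) (hT : 0 < T) (x : ℝ) :
    ∃ m : ℤ, x ∈ Ioc (T * (m : ℝ)) (T * (m + 1)) := by
  refine ⟨⌈x / T⌉ - 1, ?_, ?_⟩
  · push_cast
    have h1 : (⌈x / T⌉ : ℝ) - 1 < x / T := by
      have := Int.ceil_lt_add_one (x / T)
      linarith
    have h2 := mul_lt_mul_of_pos_left h1 hT
    rw [mul_div_cancel₀ _ hT.ne'] at h2
    exact h2
  · push_cast
    rw [sub_add_cancel]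
    have h1 : x / T ≤ ⌈x / T⌉ := Int.le_ceil _
    have h2 := mul_le_mul_of_nonneg_left h1 hT.le
    rw [mul_div_cancel₀ _ hT.ne'] at h2
    exact h2

/-- The orthogonal complement of the basis functions is trivial. -/
theorem span_bL_orthogonal (T : ℝ) (hT : 0 < T) :
    (Submodule.span ℂ (Set.range (bL T)))ᗮ = ⊥ := by
  rw [eq_bot_iff]
  intro f hf
  have hs : Real.sqrt T * Real.sqrt T = T := Real.mul_self_sqrt hT.le
  have hs0 : Real.sqrt T ≠ 0 := (Real.sqrt_pos.mpr hT).ne'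
  have h0 : ∀ p, ⟪bL T p, f⟫_ℂ = 0 := by
    intro p
    exact hf _ (Submodule.subset_span ⟨p, rfl⟩)
  have hcell : ∀ m : ℤ, ∀ᵐ x ∂(volume : Measure ℝ), x ∈ Ioc (T * (m : ℝ)) (T * (m + 1)) →
      f x = 0 := by
    intro m
    have hab : T * (m : ℝ) < T * (m + 1) := by nlinarith
    have hL2 : MemLp f 2 (volume.restrict (Ioc (T * (m : ℝ)) (T * (m + 1)))) :=
      (Lp.memLp f).restrict _
    have h1 := hasSum_sq_fourierCoeffOn hab hL2
    have h2 : ∀ n : ℤ, fourierCoeffOn hab f n = 0 := by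
      intro n
      rw [fourierCoeffOn_eq_integral]
      have h3 : ∀ x : ℝ, (fourier (-n) (x : AddCircle (T * ((m : ℝ) + 1) - T * m)) : ℂ)
          = Complex.exp (((-(2 * Real.pi * n * x / T) : ℝ) : ℂ) * Complex.I) := by
        intro x
        rw [fourier_coe_apply]
        congr 1
        have h4 : T * ((m : ℝ) + 1) - T * m = T := by ring
        have h5 : (T : ℂ) ≠ 0 := by exact_mod_cast hT.ne'
        push_cast
        have h6 : (T : ℂ) * ((m : ℂ) + 1) - T * m = T := by ring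
        rw [h6]
        field_simp
      simp_rw [h3, smul_eq_mul]
      have h7 := h0 (m, n)
      rw [inner_bL T hT] at h7
      rcases mul_eq_zero.mp h7 with h8 | h8
      · exfalso
        have : ((Real.sqrt T)⁻¹ : ℝ) = 0 := by exact_mod_cast h8
        exact (inv_ne_zero hs0) this
      · simp only at h8
        rw [h8, smul_zero]
    simp_rw [h2, norm_zero] at h1
    have h9 : (T * ((m : ℝ) + 1) - T * m)⁻¹ • ∫ x in (T * (m : ℝ))..(T * (m + 1)), ‖f x‖ ^ 2 = 0 := by
      refine h1.unique ?_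
      simp
    have h10 : ∫ x in Ioc (T * (m : ℝ)) (T * (m + 1)), ‖f x‖ ^ 2 = 0 := by
      rw [smul_eq_mul] at h9
      rcases mul_eq_zero.mp h9 with h | h
      · exfalso
        have h4 : T * ((m : ℝ) + 1) - T * m = T := by ring
        rw [h4] at h
        exact (inv_ne_zero hT.ne') h
      · rwa [intervalIntegral.integral_of_le hab.le] at h
    rw [integral_eq_zero_iff_of_nonneg] at h10
    · rw [← ae_restrict_iff' measurableSet_Ioc]
      filter_upwards [h10] with x hx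
      have : ‖f x‖ ^ 2 = 0 := hx
      exact norm_eq_zero.mp (pow_eq_zero_iff two_ne_zero |>.mp this)
    · intro x
      positivity
    · exact hL2.integrable_norm_pow two_ne_zero
  have hzero : f = 0 := by
    apply Lp.ext
    have h11 : ∀ᵐ x ∂(volume : Measure ℝ), ∀ m : ℤ, x ∈ Ioc (T * (m : ℝ)) (T * (m + 1)) →
      f x = 0 := ae_all_iff.mpr hcell
    filter_upwards [h11, Lp.coeFn_zero ℂ 2 (volume : Measure ℝ)] with x hx h12
    obtain ⟨m, hm⟩ := exists_cell T hT x
    rw [hx m hm, h12]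
    rfl
  simpa using hzero

/-- The Hilbert basis. -/
def bB (T : ℝ) (hT : 0 < T) : HilbertBasis (ℤ × ℤ) ℂ (Lp ℂ 2 (volume : Measure ℝ)) :=
  HilbertBasis.mkOfOrthogonalEqBot (orthonormal_bL T hT) (span_bL_orthogonal T hT)

theorem bB_apply (T : ℝ) (hT : 0 < T) (p : ℤ × ℤ) : bB T hT p = bL T p := by
  unfold bB
  rw [HilbertBasis.coe_mkOfOrthogonalEqBot]

end

end Pool.Agent.Q166.Had
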