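import Pool.Agent.Q166.Had.Basis

/-!
# Permutation operators of the basis are bounded from `L¹` to `L^∞`
-/

namespace Pool.Agent.Q166.Had

open MeasureTheory Set
open scoped InnerProductSpace ENNReal

noncomputable section

theorem cell_unique (T : ℝ) (hT : 0 < T) (x : ℝ) (m m' : ℤ)
    (hm : x ∈ Ioc (T * (m : ℝ)) (T * (m + 1))) (hm' : x ∈ Ioc (T * (m' : ℝ)) (T * (m' + 1))) :
    m = m' := by
  have e1 : T * (m : ℝ) < T * (m' + 1) := lt_of_lt_of_le hm.1 hm'.2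
  have e2 : T * (m' : ℝ) < T * (m + 1) := lt_of_lt_of_le hm'.1 hm.2
  have e3 : (m : ℝ) < m' + 1 := lt_of_mul_lt_mul_left e1 hT.le
  have e4 : (m' : ℝ) < m + 1 := lt_of_mul_lt_mul_left e2 hT.le
  have e3' : m < m' + 1 := by exact_mod_cast e3
  have e4' : m' < m + 1 := by exact_mod_cast e4
  omega

theorem sum_cells_le (T : ℝ) (hT : 0 < T) (f : ℝ → ℂ) (hf : Integrable f volume)
    (M : Finset ℤ) :
    ∑ m ∈ M, ∫ x in Ioc (T * (m : ℝ)) (T * (m + 1)), ‖f x‖ ≤ ∫ x, ‖f x‖ := by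
  rw [← integral_biUnion_finset M (fun m _ => measurableSet_Ioc)]
  · exact setIntegral_le_integral hf.norm (Filter.Eventually.of_forall (fun x => norm_nonneg _))
  · intro m _ m' _ hne
    refine Set.disjoint_left.mpr (fun x hx hx' => hne (cell_unique T hT x m m' hx hx'))
  · intro m _
    exact hf.norm.integrableOn

theorem norm_coeff_le (T : ℝ) (hT : 0 < T) (f : Lp ℂ 2 (volume : Measure ℝ))
    (p : ℤ × ℤ) :
    ‖⟪bL T p, f⟫_ℂ‖ ≤ (Real.sqrt T)⁻¹ * ∫ x in Ioc (T * (p.1 : ℝ)) (T * (p.1 + 1)), ‖f x‖ := by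
  have hab : T * (p.1 : ℝ) ≤ T * (p.1 + 1) := by nlinarith
  rw [inner_bL T hT, norm_mul, Complex.norm_real, Real.norm_of_nonneg (by positivity),
    intervalIntegral.integral_of_le hab]
  apply mul_le_mul_of_nonneg_left _ (by positivity)
  refine (norm_integral_le_integral_norm _).trans (le_of_eq ?_)
  apply integral_congr_ae
  refine Filter.Eventually.of_forall (fun x => ?_)
  simp only [norm_mul, Complex.norm_exp_ofReal_mul_I, one_mul]

/-- The `L¹ → L^∞` bound of a permutation operator. -/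
theorem bound_infty (T T' : ℝ) (hT : 0 < T) (hT' : 0 < T') (c : ℝ) (hc : 0 ≤ c) (ε : ℤ)
    (hε : ε = 1 ∨ ε = -1)
    (V : Lp ℂ 2 (volume : Measure ℝ) →L[ℂ] Lp ℂ 2 (volume : Measure ℝ))
    (hV : ∀ p : ℤ × ℤ, V (bL T p) = (c : ℂ) • bL T' (ε * p.2, -(ε * p.1)))
    (f : Lp ℂ 2 (volume : Measure ℝ)) (hf : Integrable f volume) :
    ∀ᵐ x ∂(volume : Measure ℝ), ‖(V f : ℝ → ℂ) x‖ ≤
      c * (Real.sqrt T)⁻¹ * (Real.sqrt T')⁻¹ * ∫ x, ‖f x‖ := by
  classical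
  set S : Finset (ℤ × ℤ) → Lp ℂ 2 (volume : Measure ℝ) := fun F =>
    ∑ p ∈ F, ⟪bL T p, f⟫_ℂ • V (bL T p) with hS
  have hlim : Filter.Tendsto S Filter.atTop (nhds (V f)) := by
    have h1 := ((bB T hT).hasSum_repr f).mapL V
    have h2 : ∀ p, V ((bB T hT).repr f p • bB T hT p) = ⟪bL T p, f⟫_ℂ • V (bL T p) := by
      intro p
      rw [map_smul, HilbertBasis.repr_apply_apply, bB_apply]
    simp_rw [h2] at h1
    exact h1
  have hmeas := tendstoInMeasure_of_tendsto_Lp hlim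
  obtain ⟨ns, -, hns⟩ := hmeas.exists_seq_tendsto_ae'
  -- pointwise formula for the finite sums
  have hpt : ∀ F : Finset (ℤ × ℤ), ∀ᵐ x ∂(volume : Measure ℝ), (S F : ℝ → ℂ) x
      = ∑ p ∈ F, ⟪bL T p, f⟫_ℂ * (c * bfun T' (ε * p.2, -(ε * p.1)) x) := by
    intro F
    have h3 : ∀ᵐ x ∂(volume : Measure ℝ), ∀ p : ℤ × ℤ,
        ((⟪bL T p, f⟫_ℂ • V (bL T p) : Lp ℂ 2 (volume : Measure ℝ)) : ℝ → ℂ) x
          = ⟪bL T p, f⟫_ℂ * (c * bfun T' (ε * p.2, -(ε * p.1)) x) := by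
      rw [ae_all_iff]
      intro p
      filter_upwards [Lp.coeFn_smul (⟪bL T p, f⟫_ℂ) (V (bL T p)),
        Lp.coeFn_smul (c : ℂ) (bL T' (ε * p.2, -(ε * p.1))),
        (memLp_bfun T' (ε * p.2, -(ε * p.1)) 2).coeFn_toLp] with x e1 e2 e3
      rw [e1, Pi.smul_apply, hV p, e2, Pi.smul_apply, smul_eq_mul, smul_eq_mul]
      congr 2
    filter_upwards [h3, Lp.coeFn_fun_finsetSum F (fun p => ⟪bL T p, f⟫_ℂ • V (bL T p))]
      with x e1 e2
    rw [hS, e2]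
    exact Finset.sum_congr rfl (fun p _ => e1 p)
  have hpt' : ∀ᵐ x ∂(volume : Measure ℝ), ∀ F : Finset (ℤ × ℤ), (S F : ℝ → ℂ) x
      = ∑ p ∈ F, ⟪bL T p, f⟫_ℂ * (c * bfun T' (ε * p.2, -(ε * p.1)) x) := ae_all_iff.mpr hpt
  filter_upwards [hns, hpt'] with x hx1 hx2
  refine le_of_tendsto hx1.norm (Filter.Eventually.of_forall (fun i => ?_))
  rw [hx2]
  set F := ns i
  obtain ⟨n0, hn0⟩ := exists_cell T' hT' x
  -- only the terms with `ε * p.2 = n0` contribute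
  have h4 : ∑ p ∈ F, ⟪bL T p, f⟫_ℂ * (c * bfun T' (ε * p.2, -(ε * p.1)) x)
      = ∑ p ∈ F.filter (fun p => ε * p.2 = n0),
        ⟪bL T p, f⟫_ℂ * (c * bfun T' (ε * p.2, -(ε * p.1)) x) := by
    symm
    apply Finset.sum_subset (Finset.filter_subset _ _)
    intro p hp hnp
    rw [bfun_of_notMem, mul_zero, mul_zero]
    intro hx'
    apply hnp
    rw [Finset.mem_filter]
    exact ⟨hp, cell_unique T' hT' x _ _ hx' hn0⟩
  rw [h4]
  have h5 : ∀ p ∈ F.filter (fun p => ε * p.2 = n0),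
      ‖⟪bL T p, f⟫_ℂ * (c * bfun T' (ε * p.2, -(ε * p.1)) x)‖ ≤
      (c * (Real.sqrt T)⁻¹ * (Real.sqrt T')⁻¹) *
        ∫ x in Ioc (T * (p.1 : ℝ)) (T * (p.1 + 1)), ‖f x‖ := by
    intro p _
    rw [norm_mul, norm_mul, Complex.norm_real, Real.norm_of_nonneg hc]
    have e1 := norm_coeff_le T hT f p
    have e2 := norm_bfun_le T' (ε * p.2, -(ε * p.1)) x
    have e3 : 0 ≤ ∫ x in Ioc (T * (p.1 : ℝ)) (T * (p.1 + 1)), ‖f x‖ :=
      integral_nonneg (fun x => norm_nonneg _)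
    calc ‖⟪bL T p, f⟫_ℂ‖ * (c * ‖bfun T' (ε * p.2, -(ε * p.1)) x‖)
        ≤ ((Real.sqrt T)⁻¹ * ∫ x in Ioc (T * (p.1 : ℝ)) (T * (p.1 + 1)), ‖f x‖) *
          (c * (Real.sqrt T')⁻¹) := by
          apply mul_le_mul e1 _ (by positivity) (by positivity)
          exact mul_le_mul_of_nonneg_left e2 hc
      _ = _ := by ring
  refine (norm_sum_le_of_le _ h5).trans ?_
  rw [← Finset.mul_sum]
  apply mul_le_mul_of_nonneg_left _ (by positivity)
  have hinj : Set.InjOn (Prod.fst : ℤ × ℤ → ℤ) (F.filter (fun p => ε * p.2 = n0) : Finset (ℤ × ℤ)) := by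
    intro p hp q hq hpq
    have e1 := (Finset.mem_filter.mp (Finset.mem_coe.mp hp)).2
    have e2 := (Finset.mem_filter.mp (Finset.mem_coe.mp hq)).2
    have e3 : p.2 = q.2 := by
      rcases hε with h | h
      · rw [h] at e1 e2; omega
      · rw [h] at e1 e2; omega
    exact Prod.ext hpq e3
  have h6 : ∑ p ∈ F.filter (fun p => ε * p.2 = n0),
        ∫ x in Ioc (T * (p.1 : ℝ)) (T * (p.1 + 1)), ‖f x‖
      = ∑ m ∈ (F.filter (fun p => ε * p.2 = n0)).image Prod.fst,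
        ∫ x in Ioc (T * (m : ℝ)) (T * (m + 1)), ‖f x‖ := by
    rw [Finset.sum_image hinj]
  rw [h6]
  exact sum_cells_le T hT f hf _

end

end Pool.Agent.Q166.Had
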